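import Pool.Agent.V7H41.OctaVol

/-!
# Affine surface-area comparison does not imply volume comparison

In three-space the truncated octahedron `{|x|₁ ≤ 13, |x|_∞ ≤ 8}` and the octahedron `{|x|₁ ≤ 12}`
are centrally symmetric convex bodies; every affine image of the first has at most the surface area
of the corresponding image of the second, but the first has the larger volume. The comparison of the
surface areas is Hlawka's inequality for the three vectors `A e₂ × A e₃`, `A e₃ × A e₁`, `A e₁ × A e₂`.
-/

set_option autoImplicit false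

open MeasureTheory Set

namespace Pool.Agent.Results.MP_8228af_gt.SurfaceVersusVolumeH41

/-- Euclidean space `ℝⁿ`. -/
abbrev E (n : ℕ) := EuclideanSpace ℝ (Fin n)

/-- A convex body: a compact convex set with nonempty interior. -/
def IsConvexBody {n : ℕ} (C : Set (E n)) : Prop :=
  IsCompact C ∧ Convex ℝ C ∧ (interior C).Nonempty

/-- Central symmetry: some translate `C - x` satisfies `C - x = -(C - x)`. -/
def CentrallySymmetric {n : ℕ} (C : Set (E n)) : Prop :=
  ∃ x : E n, ∀ y : E n, y ∈ (fun c => c - x) '' C ↔ -y ∈ (fun c => c - x) '' C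

/-- The surface area: the `(n-1)`-dimensional Hausdorff measure of the boundary, normalised so that
it is Lebesgue measure on `(n-1)`-dimensional Euclidean spaces. -/
noncomputable def surfaceArea {n : ℕ} (C : Set (E n)) : ENNReal := μHE[n - 1] (frontier C)

/-- `C₂` dominates `C₁` in affine surface area: `S(A(C₁)) ≤ S(A(C₂))` for every nonsingular affine
map `A : ℝⁿ → ℝⁿ`, the same map for both bodies. -/
def DominatesInAffineSurfaceArea {n : ℕ} (C₂ C₁ : Set (E n)) : Prop :=
  ∀ A : E n ≃ᵃ[ℝ] E n, surfaceArea (A '' C₁) ≤ surfaceArea (A '' C₂)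

/-- There are centrally symmetric convex bodies `C₁`, `C₂` in three-space such that `C₂` dominates
`C₁` in affine surface area but `C₁` has larger volume than `C₂`. -/
theorem result : ∃ C₁ C₂ : Set (E 3), IsConvexBody C₁ ∧ IsConvexBody C₂ ∧
    CentrallySymmetric C₁ ∧ CentrallySymmetric C₂ ∧ DominatesInAffineSurfaceArea C₂ C₁ ∧
    volume C₂ < volume C₁ := by
  refine ⟨V7H41.Area.C1, V7H41.Area.C2, ⟨V7H41.Area.compact_C1, V7H41.Area.convex_C1,
    V7H41.Area.interior_C1⟩, ⟨V7H41.Area.compact_C2, V7H41.Area.convex_C2,
    V7H41.Area.interior_C2⟩, ⟨0, fun y => ?_⟩, ⟨0, fun y => ?_⟩, fun A => ?_, V7H41.Area.vol_lt⟩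
  · simp only [sub_zero, image_id']
    exact (V7H41.Area.neg_C1 y).symm
  · simp only [sub_zero, image_id']
    exact (V7H41.Area.neg_C2 y).symm
  · exact V7H41.Area.dominates A

end Pool.Agent.Results.MP_8228af_gt.SurfaceVersusVolumeH41
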